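import Pool.Agent.Helper18.PS.St3

/-!
# Project PS, third theorem, module RE3
-/

set_option autoImplicit false

namespace Pool.Agent.Helper31.PS

open Finset
open Nat (totient)
open Pool.Agent.Helper18.PS

open Classical in
private theorem cardM (M N : ℕ) (E : ℝ) :
    ((Icc 1 N).filter (fun n => PrM M E n)).card ≤
      ∑ k ∈ (range (N + 1)).filter (fun k : ℕ => E ≤ 2 ^ (k + 1) ∧ M * 2 ^ k ≤ N),
        cU (N / 2 ^ k) * P2 (2 ^ (k + 1)) := by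
  have hsub : (Icc 1 N).filter (fun n => PrM M E n) ⊆
      ((range (N + 1)).filter (fun k : ℕ => E ≤ 2 ^ (k + 1) ∧ M * 2 ^ k ≤ N)).biUnion fun k =>
        (((Icc 1 (N / 2 ^ k)).filter UU) ×ˢ
          ((Icc 1 (2 ^ (k + 1))).filter
            (fun p => p.Prime ∧ ∃ q : ℕ, q.Prime ∧ p + 1 = 2 * q))).image
          (fun x => x.1 * x.2) := by
    intro n hn
    rw [mem_filter, mem_Icc] at hn
    obtain ⟨⟨hn1, hnN⟩, m, p, q, hMm, hnm, hp, hq, hpq, hU, hE⟩ := hn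
    have hm : 0 < m := by omega
    have hpN : p ≤ N / m := by
      rw [Nat.le_div_iff_mul_le hm, mul_comm, ← hnm]
      exact hnN
    have h0 : N / m ≠ 0 := by
      have := hp.pos
      omega
    have h1 : 2 ^ Nat.log 2 (N / m) ≤ N / m := Nat.pow_log_le_self 2 h0
    have h2 : N / m < 2 ^ (Nat.log 2 (N / m) + 1) := Nat.lt_pow_succ_log_self (by norm_num) _
    obtain ⟨k, hk⟩ : ∃ k, k = Nat.log 2 (N / m) := ⟨_, rfl⟩
    rw [← hk] at h1 h2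
    have h3 : 2 ^ k ≤ N := h1.trans (Nat.div_le_self _ _)
    have h5 : m * 2 ^ k ≤ N := by
      calc m * 2 ^ k ≤ m * (N / m) := Nat.mul_le_mul_left _ h1
        _ ≤ N := Nat.mul_div_le N m
    have h4 : k < N + 1 := by
      have := Nat.lt_two_pow_self (n := k)
      omega
    rw [mem_biUnion]
    refine ⟨k, ?_, ?_⟩
    · rw [mem_filter, mem_range]
      refine ⟨h4, ?_, (Nat.mul_le_mul_right _ hMm.le).trans h5⟩
      have : (p : ℝ) ≤ 2 ^ (k + 1) := by exact_mod_cast (hpN.trans h2.le)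
      linarith
    · rw [mem_image]
      refine ⟨(m, p), ?_, hnm.symm⟩
      rw [mem_product, mem_filter, mem_filter, mem_Icc, mem_Icc]
      refine ⟨⟨⟨hm, ?_⟩, hU⟩, ⟨hp.one_lt.le, ?_⟩, hp, q, hq, hpq⟩
      · rw [Nat.le_div_iff_mul_le (by positivity)]
        exact h5
      · exact hpN.trans h2.le
  calc _ ≤ _ := card_le_card hsub
    _ ≤ _ := card_biUnion_le
    _ ≤ _ := sum_le_sum fun k _ => by
        refine card_image_le.trans ?_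
        rw [card_product]
        exact le_of_eq (by unfold cU P2; congr!)

private theorem P2_le {C' : ℝ} (hC' : 0 < C')
    (hP : ∀ N : ℕ, 1 ≤ N → (P2 N : ℝ) ≤ C' * N / (1 + Real.log N) ^ 2) (k : ℕ) :
    (P2 (2 ^ (k + 1)) : ℝ) ≤ 8 * C' * 2 ^ k / (1 + (k : ℝ)) ^ 2 := by
  have h1 := hP (2 ^ (k + 1)) Nat.one_le_two_pow
  have h2 : Real.log (((2 ^ (k + 1) : ℕ) : ℝ)) = ((k : ℝ) + 1) * Real.log 2 := by
    push_cast
    rw [Real.log_pow]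
    push_cast
    ring
  have hk : (0 : ℝ) ≤ k := Nat.cast_nonneg k
  have hl := Real.log_two_gt_d9
  have h3 : (1 + (k : ℝ)) / 2 ≤ 1 + Real.log (((2 ^ (k + 1) : ℕ) : ℝ)) := by
    rw [h2]
    nlinarith
  have h4 : ((1 + (k : ℝ)) / 2) ^ 2 ≤ (1 + Real.log (((2 ^ (k + 1) : ℕ) : ℝ))) ^ 2 :=
    pow_le_pow_left₀ (by positivity) h3 2
  calc (P2 (2 ^ (k + 1)) : ℝ)
      ≤ C' * ((2 ^ (k + 1) : ℕ) : ℝ) / (1 + Real.log (((2 ^ (k + 1) : ℕ) : ℝ))) ^ 2 := h1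
    _ ≤ C' * ((2 ^ (k + 1) : ℕ) : ℝ) / ((1 + (k : ℝ)) / 2) ^ 2 :=
        div_le_div_of_nonneg_left (by positivity) (by positivity) h4
    _ = 8 * C' * 2 ^ k / (1 + (k : ℝ)) ^ 2 := by
        push_cast
        field_simp
        ring

/-- Module RE3. -/
theorem hRE3 (hP : StPI2) : StRE3 := by
  classical
  obtain ⟨C', hC', hP⟩ := hP
  refine ⟨8 * C', by positivity, fun M N _ _ => ?_⟩
  have h2 := cardM M N (Real.exp (Real.log N ^ (2 / 3 : ℝ)))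
  have h3 : (((Icc 1 N).filter
    (fun n => PrM M (Real.exp (Real.log N ^ (2 / 3 : ℝ))) n)).card : ℝ) ≤
    ∑ k ∈ (range (N + 1)).filter
      (fun k : ℕ => Real.exp (Real.log N ^ (2 / 3 : ℝ)) ≤ 2 ^ (k + 1) ∧ M * 2 ^ k ≤ N),
    (cU (N / 2 ^ k) : ℝ) * (P2 (2 ^ (k + 1)) : ℝ) := by
    have : ((((Icc 1 N).filter
    (fun n => PrM M (Real.exp (Real.log N ^ (2 / 3 : ℝ))) n)).card : ℕ) : ℝ) ≤
      ((∑ k ∈ (range (N + 1)).filter
        (fun k : ℕ => Real.exp (Real.log N ^ (2 / 3 : ℝ)) ≤ 2 ^ (k + 1) ∧ M * 2 ^ k ≤ N),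
        cU (N / 2 ^ k) * P2 (2 ^ (k + 1)) : ℕ) : ℝ) := by
      apply Nat.cast_le.2
      convert h2
    rw [Nat.cast_sum] at this
    simpa only [Nat.cast_mul] using this
  have h4 : (∑ k ∈ (range (N + 1)).filter
      (fun k : ℕ => Real.exp (Real.log N ^ (2 / 3 : ℝ)) ≤ 2 ^ (k + 1) ∧ M * 2 ^ k ≤ N),
    (cU (N / 2 ^ k) : ℝ) * (P2 (2 ^ (k + 1)) : ℝ)) ≤
    8 * C' * ∑ k ∈ (range (N + 1)).filter
      (fun k : ℕ => Real.exp (Real.log N ^ (2 / 3 : ℝ)) ≤ 2 ^ (k + 1) ∧ M * 2 ^ k ≤ N),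
      (cU (N / 2 ^ k) : ℝ) * 2 ^ k / (1 + (k : ℝ)) ^ 2 := by
    rw [mul_sum]
    refine sum_le_sum fun k _ => ?_
    calc (cU (N / 2 ^ k) : ℝ) * (P2 (2 ^ (k + 1)) : ℝ)
        ≤ (cU (N / 2 ^ k) : ℝ) * (8 * C' * 2 ^ k / (1 + (k : ℝ)) ^ 2) :=
          mul_le_mul_of_nonneg_left (P2_le hC' hP k) (Nat.cast_nonneg _)
      _ = _ := by ring
  convert h3.trans h4

end Pool.Agent.Helper31.PS
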